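import Pool.Agent.Porous.LimMod
import Pool.Agent.Sq.Final3

open Porous Porous3 Filter Topology
open scoped ENNReal

namespace Pool.Agent.Results.MP_d2e993_an.BothDimensions

/-- Dimension two: `(0, μ)` is in the closure of the moduli of the exactly isotropic composites (any period lattice) and, for every
prescribed period lattice `b`, the isotropic tensor with moduli `(0, μ)` is the limit of effective tensors of `b`-periodic
composites.  Dimension three: for every prescribed period lattice `b` (for instance `ℤ³`) the isotropic tensor with moduli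
`(0, μ)` is the limit of effective tensors of `b`-periodic composites.  In all settings the supremum of `μ_* - c κ_*` is `μ` for
every `c > 0`. -/
theorem result : ∀ κ μ : ℝ, 0 < κ → 0 < μ →
    ((((0 : ℝ), μ) ∈ closure (IsoModuli (ENNReal.ofReal κ) μ) ∧
      ∀ c : ℝ, 0 < c → IsLUB ((fun p : ℝ × ℝ => p.2 - c * p.1) '' IsoModuli (ENNReal.ofReal κ) μ) μ) ∧
    ∀ b : Module.Basis (Fin 2) ℝ ℂ, ((0 : ℝ), μ) ∈ LimModuli b (ENNReal.ofReal κ) μ ∧
      ∀ c : ℝ, 0 < c → IsLUB ((fun p : ℝ × ℝ => p.2 - c * p.1) '' LimModuli b (ENNReal.ofReal κ) μ) μ) ∧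
    ∀ b : Module.Basis (Fin 3) ℝ (Fin 3 → ℝ), ((0 : ℝ), μ) ∈ LimModuli3 b (ENNReal.ofReal κ) μ ∧
      ∀ c : ℝ, 0 < c → IsLUB ((fun p : ℝ × ℝ => p.2 - c * p.1) '' LimModuli3 b (ENNReal.ofReal κ) μ) μ := by
  intro κ μ hκ hμ
  have h : ENNReal.ofReal κ ≠ 0 := by simpa using hκ
  exact ⟨⟨⟨IsoModuli_mem_closure _ h μ hμ, fun c hc => IsoModuli_isLUB _ h μ hμ c hc⟩,
    fun b => ⟨LimModuli_mem b _ h μ hμ, fun c hc => LimModuli_isLUB b _ h μ hμ c hc⟩⟩,
    fun b => ⟨Sq.mem3 b _ h μ hμ, fun c hc => Sq.isLUB3 b _ h μ hμ c hc⟩⟩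

end Pool.Agent.Results.MP_d2e993_an.BothDimensions
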