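import Pool.Agent.Porous.IsoMod

open Porous
open scoped ENNReal

namespace Pool.Agent.Results.MP_d2e993_an.ShearCorner

/-- In dimension two the corner `(0, μ)` is approached by the moduli of isotropic composites of the elastic phase with void,
and the supremum of `μ_* - c κ_*` is `μ` for every `c > 0`. -/
theorem result : ∀ κ μ : ℝ, 0 < κ → 0 < μ →
    ((0 : ℝ), μ) ∈ closure (IsoModuli (ENNReal.ofReal κ) μ) ∧
    ∀ c : ℝ, 0 < c → IsLUB ((fun p : ℝ × ℝ => p.2 - c * p.1) '' IsoModuli (ENNReal.ofReal κ) μ) μ := by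
  intro κ μ hκ hμ
  have h : ENNReal.ofReal κ ≠ 0 := by simpa using hκ
  exact ⟨IsoModuli_mem_closure _ h μ hμ, fun c hc => IsoModuli_isLUB _ h μ hμ c hc⟩

end Pool.Agent.Results.MP_d2e993_an.ShearCorner
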