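import Pool.Agent.Porous.LimMod

open Porous Filter Topology
open scoped ENNReal

namespace Pool.Agent.Results.MP_d2e993_an.ShearCornerCells

/-- In dimension two `(0, μ)` is in the closure of the moduli of the exactly isotropic composites (any period lattice), and, for
every prescribed period lattice `b` (for instance `ℤ²`), the isotropic tensor with moduli `(0, μ)` is the limit of effective tensors
of `b`-periodic composites; the supremum of `μ_* - c κ_*` is `μ` for every `c > 0` in both settings. -/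
theorem result : ∀ κ μ : ℝ, 0 < κ → 0 < μ →
    (((0 : ℝ), μ) ∈ closure (IsoModuli (ENNReal.ofReal κ) μ) ∧
      ∀ c : ℝ, 0 < c → IsLUB ((fun p : ℝ × ℝ => p.2 - c * p.1) '' IsoModuli (ENNReal.ofReal κ) μ) μ) ∧
    ∀ b : Module.Basis (Fin 2) ℝ ℂ, ((0 : ℝ), μ) ∈ LimModuli b (ENNReal.ofReal κ) μ ∧
      ∀ c : ℝ, 0 < c → IsLUB ((fun p : ℝ × ℝ => p.2 - c * p.1) '' LimModuli b (ENNReal.ofReal κ) μ) μ := by
  intro κ μ hκ hμ
  have h : ENNReal.ofReal κ ≠ 0 := by simpa using hκ
  exact ⟨⟨IsoModuli_mem_closure _ h μ hμ, fun c hc => IsoModuli_isLUB _ h μ hμ c hc⟩,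
    fun b => ⟨LimModuli_mem b _ h μ hμ, fun c hc => LimModuli_isLUB b _ h μ hμ c hc⟩⟩

end Pool.Agent.Results.MP_d2e993_an.ShearCornerCells
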